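import Mathlib

/-!
# A dense irregular manifold without dense uniform Li-Yorke chaos

On the Hilbert space `ℓ²(U × ℕ)`, where `U` is a nonprincipal ultrafilter on `ℕ` (as a set of
subsets of `ℕ`), we construct a direct sum of forward weighted shifts which admits a dense
irregular manifold but is not densely uniformly Li-Yorke chaotic.
-/

open Filter Topology Set

namespace Pool.Agent.Results.MP_515085_an.DenseManifoldNotUniform

section Defs

variable {𝕜 : Type} [RCLike 𝕜] {X : Type} [NormedAddCommGroup X] [NormedSpace 𝕜 X]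

/-- `x` is irregular for `T`: `liminf ‖T^n x‖ = 0` and `limsup ‖T^n x‖ = ∞`. -/
def IsIrregular (T : X →L[𝕜] X) (x : X) : Prop :=
  (∀ ε : ℝ, 0 < ε → ∃ᶠ n in atTop, ‖(T ^ n) x‖ < ε) ∧
    (∀ C : ℝ, ∃ᶠ n in atTop, C < ‖(T ^ n) x‖)

/-- `T` admits a dense irregular manifold. -/
def AdmitsDenseIrregularManifold (T : X →L[𝕜] X) : Prop :=
  ∃ Y : Submodule 𝕜 X, Dense (Y : Set X) ∧ ∀ y ∈ Y, y ≠ 0 → IsIrregular T y

/-- `S` is uniformly Li-Yorke scrambled for `T`. -/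
def UniformlyScrambled (T : X →L[𝕜] X) (S : Set X) : Prop :=
  S.Nontrivial ∧ ∃ p q : ℕ → ℕ, ∀ x ∈ S, ∀ y ∈ S, x ≠ y →
    Tendsto (fun n => ‖(T ^ p n) x - (T ^ p n) y‖) atTop (𝓝 0) ∧
    Tendsto (fun n => ‖(T ^ q n) x - (T ^ q n) y‖) atTop atTop

/-- `T` is densely uniformly Li-Yorke chaotic. -/
def DenselyUniformlyLiYorkeChaotic (T : X →L[𝕜] X) : Prop :=
  ∃ S : Set X, Dense S ∧ ¬ S.Countable ∧ UniformlyScrambled T S

end Defs

/-! ### Weighted shifts on `ℓ²(κ × ℕ)` -/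

section Shift

variable {𝕜 : Type} [RCLike 𝕜] {κ : Type} (W : κ → ℕ → ℝ)

/-- the space `ℓ²(κ × ℕ)`. -/
abbrev H (𝕜 : Type) [RCLike 𝕜] (κ : Type) : Type := lp (fun _ : κ × ℕ => 𝕜) 2

/-- the shifted sequence -/
noncomputable def shFun (x : κ × ℕ → 𝕜) : κ × ℕ → 𝕜
  | (_, 0) => 0
  | (a, i + 1) => ((W a (i + 1) / W a i : ℝ) : 𝕜) * x (a, i)

lemma sh_inj : Function.Injective (fun s : κ × ℕ => (s.1, s.2 + 1)) := by
  rintro ⟨a, i⟩ ⟨b, j⟩ h
  simp only [Prod.mk.injEq, add_left_inj] at h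
  ext <;> simp [h.1, h.2]

lemma norm_sh_le (hW0 : ∀ a m, 0 < W a m) (hW : ∀ a m, W a (m + 1) ≤ 2 * W a m)
    (x : κ × ℕ → 𝕜) (a : κ) (i : ℕ) : ‖shFun W x (a, i + 1)‖ ≤ 2 * ‖x (a, i)‖ := by
  simp only [shFun]
  rw [norm_mul]
  apply mul_le_mul_of_nonneg_right _ (norm_nonneg _)
  rw [RCLike.norm_ofReal, abs_of_nonneg (div_nonneg (hW0 _ _).le (hW0 _ _).le),
    div_le_iff₀ (hW0 _ _)]
  exact hW a i

lemma shFun_zero_of_notMem (x : κ × ℕ → 𝕜) (s : κ × ℕ)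
    (hs : s ∉ Set.range (fun s : κ × ℕ => (s.1, s.2 + 1))) : shFun W x s = 0 := by
  obtain ⟨a, i⟩ := s
  cases i with
  | zero => rfl
  | succ i => exact absurd ⟨(a, i), rfl⟩ hs

lemma sq_summable (x : H 𝕜 κ) : Summable (fun s => ‖x s‖ ^ 2) := by
  have := (lp.memℓp x).summable (by norm_num)
  simpa using this

lemma norm_sq_eq (x : H 𝕜 κ) : ‖x‖ ^ 2 = ∑' s, ‖x s‖ ^ 2 := by
  have := lp.norm_rpow_eq_tsum (p := 2) (by norm_num) x
  simpa using this

lemma sh_summable (hW0 : ∀ a m, 0 < W a m) (hW : ∀ a m, W a (m + 1) ≤ 2 * W a m)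
    (x : H 𝕜 κ) : Summable (fun s => ‖shFun W x s‖ ^ 2) := by
  rw [← sh_inj.summable_iff]
  · refine Summable.of_nonneg_of_le (fun s => by simp only [Function.comp_apply]; positivity)
      (fun s => ?_) ((sq_summable x).mul_left 4)
    have := norm_sh_le W hW0 hW x s.1 s.2
    simp only [Function.comp_apply]
    calc ‖shFun W x (s.1, s.2 + 1)‖ ^ 2 ≤ (2 * ‖x (s.1, s.2)‖) ^ 2 := by gcongr
      _ = 4 * ‖x s‖ ^ 2 := by ring
  · intro s hs
    rw [shFun_zero_of_notMem W _ s hs]; simp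

lemma sh_tsum_le (hW0 : ∀ a m, 0 < W a m) (hW : ∀ a m, W a (m + 1) ≤ 2 * W a m)
    (x : H 𝕜 κ) : ∑' s, ‖shFun W x s‖ ^ 2 ≤ 4 * ‖x‖ ^ 2 := by
  have h1 : ∑' s : κ × ℕ, ‖shFun W x (s.1, s.2 + 1)‖ ^ 2 = ∑' s, ‖shFun W x s‖ ^ 2 := by
    apply sh_inj.tsum_eq (f := fun s => ‖shFun W x s‖ ^ 2)
    intro s hs
    by_contra hcon
    apply hs
    show ‖shFun W x s‖ ^ 2 = 0
    rw [shFun_zero_of_notMem W _ s hcon]; simp
  rw [← h1, norm_sq_eq, ← tsum_mul_left]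
  have h2 : Summable (fun s : κ × ℕ => 4 * ‖x s‖ ^ 2) := (sq_summable x).mul_left 4
  have h3 : ∀ s : κ × ℕ, ‖shFun W x (s.1, s.2 + 1)‖ ^ 2 ≤ 4 * ‖x s‖ ^ 2 := by
    intro s
    have := norm_sh_le W hW0 hW x s.1 s.2
    calc ‖shFun W x (s.1, s.2 + 1)‖ ^ 2 ≤ (2 * ‖x (s.1, s.2)‖) ^ 2 := by gcongr
      _ = 4 * ‖x s‖ ^ 2 := by ring
  exact (Summable.of_nonneg_of_le (fun s => by positivity) h3 h2).tsum_le_tsum h3 h2

/-- the weighted shift `T e_(a,i) = (W a (i+1) / W a i) e_(a,i+1)`. -/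
noncomputable def sh (hW0 : ∀ a m, 0 < W a m) (hW : ∀ a m, W a (m + 1) ≤ 2 * W a m) :
    H 𝕜 κ →L[𝕜] H 𝕜 κ :=
  LinearMap.mkContinuous
    { toFun := fun x => ⟨shFun W x, memℓp_gen (by simpa using sh_summable W hW0 hW x)⟩
      map_add' := by
        intro x y
        ext ⟨a, i⟩
        cases i with
        | zero => simp [shFun]
        | succ i => simp [shFun, mul_add]
      map_smul' := by
        intro c x
        ext ⟨a, i⟩
        cases i with
        | zero => simp [shFun]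
        | succ i => simp [shFun]; ring } 2 (by
      intro x
      have h1 : ‖(⟨shFun W x, memℓp_gen (by simpa using sh_summable W hW0 hW x)⟩ : H 𝕜 κ)‖ ^ 2
          ≤ (2 * ‖x‖) ^ 2 := by
        rw [norm_sq_eq]
        calc _ ≤ 4 * ‖x‖ ^ 2 := sh_tsum_le W hW0 hW x
          _ = (2 * ‖x‖) ^ 2 := by ring
      exact (abs_le_of_sq_le_sq' h1 (by positivity)).2)

variable (hW0 : ∀ a m, 0 < W a m) (hW : ∀ a m, W a (m + 1) ≤ 2 * W a m)

lemma sh_apply_succ (x : H 𝕜 κ) (a : κ) (i : ℕ) :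
    (sh W hW0 hW x : H 𝕜 κ) (a, i + 1) = ((W a (i + 1) / W a i : ℝ) : 𝕜) * x (a, i) := rfl

lemma sh_apply_zero (x : H 𝕜 κ) (a : κ) : (sh W hW0 hW x : H 𝕜 κ) (a, 0) = 0 := rfl

lemma sh_pow_apply (x : H 𝕜 κ) (a : κ) (i n : ℕ) :
    ((sh W hW0 hW ^ n) x : H 𝕜 κ) (a, i + n) = ((W a (i + n) / W a i : ℝ) : 𝕜) * x (a, i) := by
  induction n with
  | zero => simp [div_self (hW0 a i).ne']
  | succ n ih =>
    rw [pow_succ', mul_apply_eq_comp]
    rw [show i + (n + 1) = (i + n) + 1 from rfl, sh_apply_succ, ih, ← mul_assoc]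
    congr 1
    rw [← RCLike.ofReal_mul]
    congr 1
    have h1 := (hW0 a (i + n)).ne'
    have h2 := (hW0 a i).ne'
    field_simp

lemma norm_pow_ge (x : H 𝕜 κ) (a : κ) (i n : ℕ) :
    W a (i + n) / W a i * ‖x (a, i)‖ ≤ ‖(sh W hW0 hW ^ n) x‖ := by
  have h := lp.norm_apply_le_norm (by norm_num) ((sh W hW0 hW ^ n) x) (a, i + n)
  rw [sh_pow_apply, norm_mul, RCLike.norm_ofReal,
    abs_of_nonneg (div_nonneg (hW0 _ _).le (hW0 _ _).le)] at h
  exact h

variable [DecidableEq κ]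

/-- unit vectors. -/
noncomputable def ev (s : κ × ℕ) : H 𝕜 κ := lp.single 2 s (1 : 𝕜)

lemma ev_apply (s t : κ × ℕ) : (ev s : H 𝕜 κ) t = if t = s then 1 else 0 := by
  unfold ev
  by_cases h : t = s
  · subst h; simp
  · rw [lp.single_apply_ne _ _ _ h]; simp [h]

lemma norm_ev (s : κ × ℕ) : ‖(ev s : H 𝕜 κ)‖ = 1 := by
  unfold ev
  rw [lp.norm_single (by norm_num)]; simp

lemma sh_ev (a : κ) (i : ℕ) : sh W hW0 hW (ev (a, i) : H 𝕜 κ) =
    ((W a (i + 1) / W a i : ℝ) : 𝕜) • ev (a, i + 1) := by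
  ext ⟨b, j⟩
  rw [lp.coeFn_smul, Pi.smul_apply, ev_apply]
  cases j with
  | zero => rw [sh_apply_zero]; simp
  | succ j =>
    rw [sh_apply_succ, ev_apply]
    by_cases h : (b, j) = (a, i)
    · simp only [Prod.mk.injEq] at h
      obtain ⟨rfl, rfl⟩ := h
      simp
    · have h' : ¬ ((b, j + 1) = (a, i + 1)) := by
        intro hc
        apply h
        simpa using hc
      rw [if_neg h, if_neg h']; simp

lemma sh_pow_ev (a : κ) (i n : ℕ) : (sh W hW0 hW ^ n) (ev (a, i) : H 𝕜 κ) =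
    ((W a (i + n) / W a i : ℝ) : 𝕜) • ev (a, i + n) := by
  induction n with
  | zero => simp [div_self (hW0 a i).ne']
  | succ n ih =>
    rw [pow_succ', mul_apply_eq_comp, ih, map_smul, sh_ev, smul_smul,
      ← RCLike.ofReal_mul]
    congr 2
    rw [show i + (n + 1) = (i + n) + 1 from rfl]
    have h1 := (hW0 a (i + n)).ne'
    have h2 := (hW0 a i).ne'
    field_simp

lemma norm_pow_ev (a : κ) (i n : ℕ) :
    ‖(sh W hW0 hW ^ n) (ev (a, i) : H 𝕜 κ)‖ = W a (i + n) / W a i := by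
  rw [sh_pow_ev, norm_smul, norm_ev, mul_one, RCLike.norm_ofReal,
    abs_of_nonneg (div_nonneg (hW0 _ _).le (hW0 _ _).le)]

lemma dense_span : Dense (Submodule.span 𝕜 (Set.range (ev : κ × ℕ → H 𝕜 κ)) : Set (H 𝕜 κ)) := by
  intro x
  have h := lp.hasSum_single (p := 2) (by norm_num) x
  apply mem_closure_of_tendsto h
  refine Eventually.of_forall fun F => ?_
  apply Submodule.sum_mem
  intro s _
  have : lp.single 2 s (x s) = (x s) • (ev s : H 𝕜 κ) := by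
    unfold ev
    rw [← lp.single_smul]; simp
  rw [this]
  exact Submodule.smul_mem _ _ (Submodule.subset_span ⟨s, rfl⟩)

end Shift

/-! ### The weights -/

/-- the exponent of the weight: on the block `[j², (j+1)²)` with `j ∈ A` it rises from `0` to
`j/2`, drops to `-j/2`, stays there for a long time, and returns to `0`; on the other blocks it
is `0`. -/
noncomputable def fexp (A : Set ℕ) (m : ℕ) : ℤ := by
  classical
  exact if Nat.sqrt m ∈ A then
    (if m - Nat.sqrt m * Nat.sqrt m ≤ Nat.sqrt m / 2 then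
      ((m - Nat.sqrt m * Nat.sqrt m : ℕ) : ℤ)
    else - ((min (Nat.sqrt m / 2) (2 * Nat.sqrt m + 1 - (m - Nat.sqrt m * Nat.sqrt m)) : ℕ) : ℤ))
  else 0

lemma sqrt_eq (j r : ℕ) (hr : r ≤ 2 * j) : Nat.sqrt (j * j + r) = j := by
  apply Nat.le_antisymm
  · have : Nat.sqrt (j * j + r) < j + 1 := by
      rw [Nat.sqrt_lt]; nlinarith
    omega
  · rw [Nat.le_sqrt]; omega

lemma fexp_block_low (A : Set ℕ) (j r : ℕ) (hj : j ∈ A) (hr : r ≤ 2 * j) (h : r ≤ j / 2) :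
    fexp A (j * j + r) = r := by
  classical
  unfold fexp
  rw [sqrt_eq j r hr, if_pos hj, Nat.add_sub_cancel_left, if_pos h]

lemma fexp_block_high (A : Set ℕ) (j r : ℕ) (hj : j ∈ A) (hr : r ≤ 2 * j) (h : ¬ r ≤ j / 2) :
    fexp A (j * j + r) = - ((min (j / 2) (2 * j + 1 - r) : ℕ) : ℤ) := by
  classical
  unfold fexp
  rw [sqrt_eq j r hr, if_pos hj, Nat.add_sub_cancel_left, if_neg h]

lemma fexp_out (A : Set ℕ) (m : ℕ) (h : Nat.sqrt m ∉ A) : fexp A m = 0 := by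
  classical
  unfold fexp
  rw [if_neg h]

lemma exists_block (m : ℕ) : ∃ j r, m = j * j + r ∧ r ≤ 2 * j := by
  refine ⟨Nat.sqrt m, m - Nat.sqrt m * Nat.sqrt m, ?_, ?_⟩
  · have := Nat.sqrt_le m; omega
  · have := Nat.sqrt_le_add m; omega

lemma fexp_start (A : Set ℕ) (j : ℕ) : fexp A (j * j) = 0 := by
  by_cases hj : j ∈ A
  · have := fexp_block_low A j 0 hj (by omega) (by omega)
    simpa using this
  · apply fexp_out
    have := sqrt_eq j 0 (by omega)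
    rw [add_zero] at this
    rwa [this]

lemma fexp_succ_le (A : Set ℕ) (m : ℕ) : fexp A (m + 1) ≤ fexp A m + 1 := by
  obtain ⟨j, r, rfl, hr⟩ := exists_block m
  by_cases hr' : r + 1 ≤ 2 * j
  · by_cases hj : j ∈ A
    · by_cases h1 : r ≤ j / 2
      · rw [fexp_block_low A j r hj hr h1]
        by_cases h2 : r + 1 ≤ j / 2
        · rw [show j * j + r + 1 = j * j + (r + 1) by ring, fexp_block_low A j (r + 1) hj hr' h2]
          push_cast; omega
        · rw [show j * j + r + 1 = j * j + (r + 1) by ring, fexp_block_high A j (r + 1) hj hr' h2]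
          omega
      · rw [fexp_block_high A j r hj hr h1]
        rw [show j * j + r + 1 = j * j + (r + 1) by ring,
          fexp_block_high A j (r + 1) hj hr' (by omega)]
        omega
    · have e1 : fexp A (j * j + r + 1) = 0 := by
        apply fexp_out
        rw [show j * j + r + 1 = j * j + (r + 1) from rfl, sqrt_eq j (r + 1) hr']
        exact hj
      have e2 : fexp A (j * j + r) = 0 := by
        apply fexp_out
        rw [sqrt_eq j r hr]
        exact hj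
      rw [e1, e2]
      norm_num
  · have hr2 : r = 2 * j := by omega
    subst hr2
    rw [show j * j + 2 * j + 1 = (j + 1) * (j + 1) by ring, fexp_start]
    by_cases hj : j ∈ A
    · by_cases h1 : 2 * j ≤ j / 2
      · rw [fexp_block_low A j _ hj hr h1]; positivity
      · rw [fexp_block_high A j _ hj hr h1]; omega
    · rw [fexp_out A _ (by rw [sqrt_eq j _ hr]; exact hj)]; norm_num

/-- the weights. -/
noncomputable def Wt (A : Set ℕ) (m : ℕ) : ℝ := (2 : ℝ) ^ fexp A m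

lemma Wt_pos (A : Set ℕ) (m : ℕ) : 0 < Wt A m := by unfold Wt; positivity

lemma Wt_succ (A : Set ℕ) (m : ℕ) : Wt A (m + 1) ≤ 2 * Wt A m := by
  unfold Wt
  calc (2 : ℝ) ^ fexp A (m + 1) ≤ (2 : ℝ) ^ (fexp A m + 1) :=
        zpow_le_zpow_right₀ (by norm_num) (fexp_succ_le A m)
    _ = 2 * (2 : ℝ) ^ fexp A m := by rw [zpow_add_one₀ (by norm_num)]; ring

/-- the times at which the weights with `j ∈ A` are small. -/
def cc (j : ℕ) : ℕ := j * j + (j / 2 + 1)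

lemma Wt_small (A : Set ℕ) (i j : ℕ) (hj : j ∈ A) (hij : i + 1 ≤ j) :
    Wt A (i + cc j) = (2 : ℝ) ^ (-((j / 2 : ℕ) : ℤ)) := by
  unfold Wt cc
  rw [show i + (j * j + (j / 2 + 1)) = j * j + (i + j / 2 + 1) by ring,
    fexp_block_high A j _ hj (by omega) (by omega)]
  congr 2
  rw [Nat.min_eq_left (by omega)]

lemma Wt_big (A : Set ℕ) (j : ℕ) (hj : j ∈ A) :
    Wt A (j * j + j / 2) = (2 : ℝ) ^ (((j / 2 : ℕ) : ℤ)) := by
  unfold Wt
  rw [fexp_block_low A j _ hj (by omega) le_rfl]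

lemma Wt_out (A : Set ℕ) (m : ℕ) (h : Nat.sqrt m ∉ A) : Wt A m = 1 := by
  unfold Wt
  rw [fexp_out A m h]; simp

/-! ### The index set: a nonprincipal ultrafilter -/

/-- the index set: the members of a fixed nonprincipal ultrafilter on `ℕ`. -/
abbrev K : Type := {A : Set ℕ // A ∈ hyperfilter ℕ}

/-- the weights of the direct sum. -/
noncomputable def WK (a : K) (m : ℕ) : ℝ := Wt a.1 m

lemma WK_pos (a : K) (m : ℕ) : 0 < WK a m := Wt_pos _ _

lemma WK_succ (a : K) (m : ℕ) : WK a (m + 1) ≤ 2 * WK a m := Wt_succ _ _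

/-- the operator. -/
noncomputable def TK (𝕜 : Type) [RCLike 𝕜] : H 𝕜 K →L[𝕜] H 𝕜 K := sh WK WK_pos WK_succ

lemma hyper_le : (hyperfilter ℕ : Filter ℕ) ≤ atTop := by
  rw [← Nat.cofinite_eq_atTop]; exact hyperfilter_le_cofinite

lemma tendsto_div2 : Tendsto (fun j : ℕ => j / 2) atTop atTop := by
  rw [tendsto_atTop_atTop]
  exact fun b => ⟨2 * b, fun a ha => by omega⟩

lemma tendsto_pow_neg : Tendsto (fun j : ℕ => (2 : ℝ) ^ (-((j / 2 : ℕ) : ℤ))) atTop (𝓝 0) := by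
  have h1 : Tendsto (fun n : ℕ => ((1 : ℝ) / 2) ^ n) atTop (𝓝 0) :=
    tendsto_pow_atTop_nhds_zero_of_lt_one (by norm_num) (by norm_num)
  refine (h1.comp tendsto_div2).congr fun j => ?_
  simp only [Function.comp_apply]
  rw [zpow_neg, zpow_natCast]
  simp

lemma tendsto_pow_pos : Tendsto (fun j : ℕ => (2 : ℝ) ^ (((j / 2 : ℕ) : ℤ))) atTop atTop := by
  have h1 : Tendsto (fun n : ℕ => (2 : ℝ) ^ n) atTop atTop :=
    tendsto_pow_atTop_atTop_of_one_lt (by norm_num)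
  refine (h1.comp tendsto_div2).congr fun j => ?_
  simp only [Function.comp_apply, zpow_natCast]

lemma tendsto_cc : Tendsto cc atTop atTop := by
  rw [tendsto_atTop_atTop]
  refine fun b => ⟨b, fun a ha => ?_⟩
  unfold cc
  nlinarith [Nat.zero_le (a / 2)]

open Classical in
lemma tendsto_small {𝕜 : Type} [RCLike 𝕜] (y : H 𝕜 K)
    (hy : y ∈ Submodule.span 𝕜 (Set.range (ev : K × ℕ → H 𝕜 K))) :
    Tendsto (fun j => (TK 𝕜 ^ cc j) y) (hyperfilter ℕ) (𝓝 0) := by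
  induction hy using Submodule.span_induction with
  | mem x hx =>
    obtain ⟨⟨a, i⟩, rfl⟩ := hx
    rw [tendsto_zero_iff_norm_tendsto_zero]
    have h1 : Tendsto (fun j : ℕ => (2 : ℝ) ^ (-((j / 2 : ℕ) : ℤ)) / WK a i) (hyperfilter ℕ)
        (𝓝 (0 / WK a i)) := (tendsto_pow_neg.mono_left hyper_le).div_const _
    rw [zero_div] at h1
    refine h1.congr' ?_
    have h2 : ∀ᶠ j in (hyperfilter ℕ : Filter ℕ), j ∈ a.1 := a.2
    have h3 : ∀ᶠ j in (hyperfilter ℕ : Filter ℕ), i + 1 ≤ j :=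
      hyper_le (eventually_ge_atTop (i + 1))
    filter_upwards [h2, h3] with j hj hij
    unfold TK
    rw [norm_pow_ev]
    congr 1
    exact (Wt_small a.1 i j hj hij).symm
  | zero => simp
  | add x y _ _ hx hy => simpa using hx.add hy
  | smul c x _ hx => simpa using hx.const_smul c

lemma TK_norm_ge {𝕜 : Type} [RCLike 𝕜] (x : H 𝕜 K) (a : K) (i n : ℕ) :
    WK a (i + n) / WK a i * ‖x (a, i)‖ ≤ ‖(TK 𝕜 ^ n) x‖ := norm_pow_ge WK WK_pos WK_succ x a i n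

lemma tendsto_big {𝕜 : Type} [RCLike 𝕜] (y : H 𝕜 K) (a : K) (i : ℕ) (hy : y (a, i) ≠ 0) :
    Tendsto (fun j => ‖(TK 𝕜 ^ (j * j + j / 2 - i)) y‖) (hyperfilter ℕ) atTop := by
  have h1 : Tendsto (fun j : ℕ => (2 : ℝ) ^ (((j / 2 : ℕ) : ℤ)) * (‖y (a, i)‖ / WK a i))
      (hyperfilter ℕ) atTop :=
    (tendsto_pow_pos.mono_left hyper_le).atTop_mul_const
      (div_pos (norm_pos_iff.2 hy) (WK_pos a i))
  refine tendsto_atTop_mono' _ ?_ h1
  have h2 : ∀ᶠ j in (hyperfilter ℕ : Filter ℕ), j ∈ a.1 := a.2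
  have h3 : ∀ᶠ j in (hyperfilter ℕ : Filter ℕ), i + 1 ≤ j :=
    hyper_le (eventually_ge_atTop (i + 1))
  filter_upwards [h2, h3] with j hj hij
  have h4 := TK_norm_ge y a i (j * j + j / 2 - i)
  have h5 : i + (j * j + j / 2 - i) = j * j + j / 2 := by
    have : i ≤ j * j := by nlinarith
    omega
  rw [h5] at h4
  have h6 : WK a (j * j + j / 2) = (2 : ℝ) ^ (((j / 2 : ℕ) : ℤ)) := Wt_big a.1 j hj
  rw [h6] at h4
  calc (2 : ℝ) ^ (((j / 2 : ℕ) : ℤ)) * (‖y (a, i)‖ / WK a i)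
      = (2 : ℝ) ^ (((j / 2 : ℕ) : ℤ)) / WK a i * ‖y (a, i)‖ := by ring
    _ ≤ _ := h4

theorem manifold (𝕜 : Type) [RCLike 𝕜] : AdmitsDenseIrregularManifold (TK 𝕜) := by
  classical
  refine ⟨Submodule.span 𝕜 (Set.range (ev : K × ℕ → H 𝕜 K)), dense_span, ?_⟩
  intro y hy hy0
  constructor
  · intro ε hε
    have h1 := (tendsto_zero_iff_norm_tendsto_zero.1 (tendsto_small y hy))
    have h2 : ∀ᶠ j in (hyperfilter ℕ : Filter ℕ), ‖(TK 𝕜 ^ cc j) y‖ < ε :=
      h1.eventually (gt_mem_nhds hε)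
    have h3 : ∃ᶠ j in atTop, ‖(TK 𝕜 ^ cc j) y‖ < ε := h2.frequently.filter_mono hyper_le
    exact tendsto_cc.frequently h3
  · intro C
    have hex : ∃ s, y s ≠ 0 := by
      by_contra hcon
      push Not at hcon
      apply hy0
      ext s
      simpa using hcon s
    obtain ⟨⟨a, i⟩, hai⟩ := hex
    have h1 := tendsto_big y a i hai
    have h2 : ∀ᶠ j in (hyperfilter ℕ : Filter ℕ), C < ‖(TK 𝕜 ^ (j * j + j / 2 - i)) y‖ :=
      h1.eventually (eventually_gt_atTop C)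
    have h3 : ∃ᶠ j in atTop, C < ‖(TK 𝕜 ^ (j * j + j / 2 - i)) y‖ :=
      h2.frequently.filter_mono hyper_le
    have h4 : Tendsto (fun j : ℕ => j * j + j / 2 - i) atTop atTop := by
      rw [tendsto_atTop_atTop]
      refine fun b => ⟨b + i + 1, fun a ha => ?_⟩
      have : a ≤ a * a := by nlinarith
      omega
    exact h4.frequently h3

lemma exists_pair {𝕜 : Type} [RCLike 𝕜] (S : Set (H 𝕜 K)) (hS : Dense S) (a : K) :
    ∃ x ∈ S, ∃ y ∈ S, 1 ≤ ‖(x - y : H 𝕜 K) (a, 0)‖ := by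
  classical
  obtain ⟨x, hx, hxS⟩ := hS.exists_dist_lt ((2 : 𝕜) • (ev (a, 0) : H 𝕜 K)) (ε := 1 / 2)
    (by norm_num)
  obtain ⟨y, hy, hyS⟩ := hS.exists_dist_lt (0 : H 𝕜 K) (ε := 1 / 2) (by norm_num)
  refine ⟨x, hx, y, hy, ?_⟩
  have h1 : ‖((2 : 𝕜) • (ev (a, 0) : H 𝕜 K) - x) (a, 0)‖ ≤ 1 / 2 := by
    refine (lp.norm_apply_le_norm (by norm_num) _ _).trans ?_
    rw [← dist_eq_norm]; exact hxS.le
  have h2 : ‖((0 : H 𝕜 K) - y) (a, 0)‖ ≤ 1 / 2 := by
    refine (lp.norm_apply_le_norm (by norm_num) _ _).trans ?_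
    rw [← dist_eq_norm]; exact hyS.le
  have h3 : (x - y : H 𝕜 K) (a, 0) = 2 - (((2 : 𝕜) • (ev (a, 0) : H 𝕜 K) - x) (a, 0)) +
      (((0 : H 𝕜 K) - y) (a, 0)) := by
    simp [ev_apply, sub_eq_add_neg]
  rw [h3]
  have h4 : ‖(2 : 𝕜)‖ = 2 := by simp
  have h5 := norm_sub_norm_le (2 : 𝕜) ((((2 : 𝕜) • (ev (a, 0) : H 𝕜 K) - x) (a, 0)) -
      (((0 : H 𝕜 K) - y) (a, 0)))
  have h6 := norm_sub_le (((2 : 𝕜) • (ev (a, 0) : H 𝕜 K) - x) (a, 0)) (((0 : H 𝕜 K) - y) (a, 0))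
  rw [h4] at h5
  rw [sub_add]
  linarith

theorem not_uniform (𝕜 : Type) [RCLike 𝕜] : ¬ DenselyUniformlyLiYorkeChaotic (TK 𝕜) := by
  rintro ⟨S, hSd, -, -, p, q, hpq⟩
  -- every member of the ultrafilter eventually contains `Nat.sqrt (p n)`
  have key : ∀ A ∈ hyperfilter ℕ, ∀ᶠ n in atTop, Nat.sqrt (p n) ∈ A := by
    intro A hA
    obtain ⟨x, hx, y, hy, hxy⟩ := exists_pair S hSd (⟨A, hA⟩ : K)
    have hne : x ≠ y := by
      rintro rfl
      simp at hxy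
      linarith
    have h1 := (hpq x hx y hy hne).1
    have h2 : ∀ᶠ n in atTop, ‖(TK 𝕜 ^ p n) x - (TK 𝕜 ^ p n) y‖ < 1 :=
      h1.eventually (gt_mem_nhds one_pos)
    filter_upwards [h2] with n hn
    by_contra hcon
    have h3 := TK_norm_ge (x - y) (⟨A, hA⟩ : K) 0 (p n)
    rw [zero_add, map_sub] at h3
    have h4 : WK (⟨A, hA⟩ : K) (p n) = 1 := Wt_out A (p n) hcon
    have h5 : WK (⟨A, hA⟩ : K) 0 = 1 := by
      have := fexp_start A 0
      simp only [mul_zero] at this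
      show Wt A 0 = 1
      unfold Wt
      rw [this]; simp
    rw [h4, h5, div_one, one_mul] at h3
    linarith
  have hs : Tendsto (fun n => Nat.sqrt (p n)) atTop atTop := by
    rw [tendsto_atTop]
    intro N
    apply key {m | N ≤ m}
    exact hyper_le (eventually_ge_atTop N)
  obtain ⟨φ, hφ, hv⟩ := strictMono_subseq_of_tendsto_atTop hs
  set v : ℕ → ℕ := (fun n => Nat.sqrt (p n)) ∘ φ with hvdef
  have key' : ∀ A ∈ hyperfilter ℕ, ∀ᶠ k in atTop, v k ∈ A := fun A hA =>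
    hφ.tendsto_atTop.eventually (key A hA)
  let B : Set ℕ := Set.range (fun k => v (2 * k))
  rcases (hyperfilter ℕ).mem_or_compl_mem B with hB | hB
  · obtain ⟨N, hN⟩ := eventually_atTop.1 (key' B hB)
    obtain ⟨k, hk⟩ := hN (2 * N + 1) (by omega)
    have := hv.injective hk
    omega
  · obtain ⟨N, hN⟩ := eventually_atTop.1 (key' Bᶜ hB)
    exact hN (2 * N) (by omega) ⟨N, rfl⟩

/-- Over `𝕜 = ℝ` or `ℂ` there is a (Hilbert) space `X` and a bounded operator `T` on `X` which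
admits a dense irregular manifold but is not densely uniformly Li-Yorke chaotic. -/
theorem result (𝕜 : Type) [RCLike 𝕜] :
    ∃ (X : Type) (_ : NormedAddCommGroup X) (_ : InnerProductSpace 𝕜 X) (_ : CompleteSpace X)
      (T : X →L[𝕜] X), AdmitsDenseIrregularManifold T ∧ ¬ DenselyUniformlyLiYorkeChaotic T :=
  ⟨H 𝕜 K, inferInstance, inferInstance, inferInstance, TK 𝕜, manifold 𝕜, not_uniform 𝕜⟩

end Pool.Agent.Results.MP_515085_an.DenseManifoldNotUniform
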